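import Pool.Agent.E8helper5.LocMain

/-!
MP_6ae049_co, Q1: if a finite graph `G` is locatable (robber locating game), then the graph
`G^{1/2}`, obtained by subdividing every edge once, is locatable.

Definitions (in `Pool/Agent/E8helper5/LocDefs.lean`):
* `IsTraj G r`: the robber is at `r t` when the `t`-th probe is made and stays or moves along an edge
  between two probes;
* `hist G σ r t`: the list of the first `t` answers (distances, `⊤` for different components) when
  the cop uses the strategy `σ`, which maps the list of answers so far to the next probe;
* `Locatable G`: some `σ` and some `T` such that against every trajectory `r` there is a round
  `t < T` after which the answers determine `r t`;
* `Half G`: the graph `G^{1/2}` on the vertices and the edges of `G`.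

Proof. Put `d` for the distance of `G`. A probe at an old vertex `v` gives `2 d(v, x)` if the robber is
at an old vertex `x` and `2 min (d(v, x), d(v, y)) + 1` if he is at the midpoint of `xy`. So the
parity tells which of the two holds and, while he waits at a midpoint, the nearer end of his edge
moves like a robber in `G`. Let `n` be the number of rounds needed in `G` from the belief set `X`, with
optimal first probe `v`. The cop probes `v`. If the answer is even, the belief set lies in a class that
needs at most `n - 1` rounds in `G`. If it is odd, she goes on with the strategy of `G` for the
nearer end. Whenever the robber leaves the midpoint (even answer) his new position is in a set that
needs at most `n - 1` rounds in `G`. If he stays, then after at most `n` rounds the nearer end is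
known to be one vertex `z`, the other ends `w` are neighbours of `z` in one common distance class
of the last probe, and this class needs at most `n - 1` rounds in `G`. Now she probes the possible `w`
one after the other: he is caught if he stays, and if he leaves for another `w` the new belief
set again needs at most `n - 1` rounds in `G` (locatable graphs have no triangle, so the answers do
not mix). Induction on `n` finishes the proof; the answer `⊤` is treated in the same way.
-/

set_option autoImplicit false

namespace Pool.Agent.Results.MP_6ae049_co.HalfSubdivisionH5

open E8H5Loc

/-- If a finite graph `G` (connected or not) is locatable, then `G^{1/2}` is locatable. -/
theorem result {V : Type*} [Finite V] (G : SimpleGraph V) (hG : Locatable G) :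
    Locatable (Half G) :=
  half_locatable hG

end Pool.Agent.Results.MP_6ae049_co.HalfSubdivisionH5
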